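import Pool.Agent.H80.LD.Targets

/-!
# MP_47c37b, board ldp, row DCM: determinacy from the growth of the moments
-/

set_option autoImplicit false

open MeasureTheory SchwartzMap Filter Topology
open scoped ENNReal ContDiff InnerProductSpace

open Pool.Agent.H80.LD
open Pool.Agent.H43.DPC (V S SD moment IsMAO IsDC)

namespace Pool.Agent.H85.LD

/-- absolute moments are dominated by even moments, in the summable form -/
theorem summable_abs {Ω : Type*} [MeasurableSpace Ω] (μ : Measure Ω) (X : Ω → ℝ)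
    (hX : ∀ p : ℕ, Integrable (fun z => X z ^ p) μ) (v : ℝ)
    (hb : ∀ p : ℕ, (∫ z, X z ^ (2 * p) ∂μ) * (2 ^ p * (p.factorial : ℝ)) ≤
      ((2 * p).factorial : ℝ) * v ^ p) :
    Summable (fun n : ℕ => (∫ z, |X z| ^ n ∂μ) / (n.factorial : ℝ)) := by
  have habs : ∀ n : ℕ, Integrable (fun z => |X z| ^ n) μ := by
    intro n
    have := (hX n).abs
    refine this.congr (Eventually.of_forall (fun z => ?_))
    simp [abs_pow]
  have heven : ∀ p : ℕ, ∫ z, |X z| ^ (2 * p) ∂μ = ∫ z, X z ^ (2 * p) ∂μ := by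
    intro p
    refine integral_congr_ae (Eventually.of_forall (fun z => ?_))
    simp only [pow_mul, sq_abs]
  have hE : ∀ p : ℕ, (∫ z, |X z| ^ (2 * p) ∂μ) / ((2 * p).factorial : ℝ) ≤
      (v / 2) ^ p / (p.factorial : ℝ) := by
    intro p
    have h1 : (0 : ℝ) < ((2 * p).factorial : ℝ) := by exact_mod_cast Nat.factorial_pos _
    have h2 : (0 : ℝ) < (p.factorial : ℝ) := by exact_mod_cast Nat.factorial_pos _
    have h3 : (0 : ℝ) < 2 ^ p := by positivity
    rw [heven, div_pow, div_div, div_le_div_iff₀ h1 (by positivity)]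
    have := hb p
    linarith
  have hexp : Summable (fun p : ℕ => (v / 2) ^ p / (p.factorial : ℝ)) :=
    Real.summable_pow_div_factorial _
  have hse : Summable (fun p : ℕ => (∫ z, |X z| ^ (2 * p) ∂μ) / ((2 * p).factorial : ℝ)) := by
    refine Summable.of_nonneg_of_le (fun p => ?_) hE hexp
    have : 0 ≤ ∫ z, |X z| ^ (2 * p) ∂μ := integral_nonneg (fun z => by positivity)
    positivity
  have hso : Summable (fun p : ℕ => (∫ z, |X z| ^ (2 * p + 1) ∂μ) /
      ((2 * p + 1).factorial : ℝ)) := by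
    have hb2 : ∀ p : ℕ, (∫ z, |X z| ^ (2 * p + 1) ∂μ) / ((2 * p + 1).factorial : ℝ) ≤
        (v / 2) ^ p / (p.factorial : ℝ) + (v / 2) ^ (p + 1) / (p.factorial : ℝ) := by
      intro p
      have h1 : ∫ z, |X z| ^ (2 * p + 1) ∂μ ≤
          (∫ z, |X z| ^ (2 * p) ∂μ) / 2 + (∫ z, |X z| ^ (2 * (p + 1)) ∂μ) / 2 := by
        rw [← integral_div, ← integral_div, ← integral_add ((habs _).div_const _)
          ((habs _).div_const _)]
        refine integral_mono (habs _) (((habs _).div_const _).add ((habs _).div_const _))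
          (fun z => ?_)
        have h0 : 0 ≤ |X z| ^ (2 * p) := by positivity
        have h2 : |X z| ^ (2 * p + 1) = |X z| ^ (2 * p) * |X z| := pow_succ _ _
        have h3 : |X z| ^ (2 * (p + 1)) = |X z| ^ (2 * p) * |X z| ^ 2 := by
          rw [← pow_add]
          rfl
        simp only
        rw [h2, h3]
        nlinarith [mul_nonneg h0 (sq_nonneg (|X z| - 1))]
      have hf1 : ((2 * p + 1).factorial : ℝ) = (2 * p + 1 : ℝ) * ((2 * p).factorial : ℝ) := by
        rw [Nat.factorial_succ]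
        push_cast
        ring
      have hf2 : ((2 * (p + 1)).factorial : ℝ) =
          (2 * p + 2 : ℝ) * ((2 * p + 1).factorial : ℝ) := by
        have : 2 * (p + 1) = (2 * p + 1) + 1 := by ring
        rw [this, Nat.factorial_succ]
        push_cast
        ring
      have hp1 : (0 : ℝ) < ((2 * p).factorial : ℝ) := by exact_mod_cast Nat.factorial_pos _
      have hp2 : (0 : ℝ) < ((2 * p + 1).factorial : ℝ) := by exact_mod_cast Nat.factorial_pos _
      have hp3 : (0 : ℝ) < (p.factorial : ℝ) := by exact_mod_cast Nat.factorial_pos _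
      have hf3 : ((p + 1).factorial : ℝ) = (p + 1 : ℝ) * (p.factorial : ℝ) := by
        rw [Nat.factorial_succ]
        push_cast
        ring
      have hA : (∫ z, |X z| ^ (2 * p) ∂μ) / 2 / ((2 * p + 1).factorial : ℝ) ≤
          (v / 2) ^ p / (p.factorial : ℝ) := by
        refine le_trans ?_ (hE p)
        have h0 : 0 ≤ ∫ z, |X z| ^ (2 * p) ∂μ := integral_nonneg (fun z => by positivity)
        rw [div_div]
        refine div_le_div_of_nonneg_left h0 hp1 ?_
        rw [hf1]
        nlinarith [(Nat.cast_nonneg p : (0 : ℝ) ≤ p)]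
      have hB : (∫ z, |X z| ^ (2 * (p + 1)) ∂μ) / 2 / ((2 * p + 1).factorial : ℝ) ≤
          (v / 2) ^ (p + 1) / (p.factorial : ℝ) := by
        have h4 := hE (p + 1)
        rw [hf2, hf3] at h4
        have h5 : (0 : ℝ) < (p : ℝ) + 1 := by positivity
        have h6 : (∫ z, |X z| ^ (2 * (p + 1)) ∂μ) / 2 / ((2 * p + 1).factorial : ℝ) =
            (p + 1 : ℝ) * ((∫ z, |X z| ^ (2 * (p + 1)) ∂μ) /
              ((2 * p + 2 : ℝ) * ((2 * p + 1).factorial : ℝ))) := by
          field_simp
        have h7 : (v / 2) ^ (p + 1) / (p.factorial : ℝ) =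
            (p + 1 : ℝ) * ((v / 2) ^ (p + 1) / ((p + 1 : ℝ) * (p.factorial : ℝ))) := by
          field_simp
        rw [h6, h7]
        exact mul_le_mul_of_nonneg_left h4 h5.le
      calc (∫ z, |X z| ^ (2 * p + 1) ∂μ) / ((2 * p + 1).factorial : ℝ)
          ≤ ((∫ z, |X z| ^ (2 * p) ∂μ) / 2 + (∫ z, |X z| ^ (2 * (p + 1)) ∂μ) / 2) /
              ((2 * p + 1).factorial : ℝ) := div_le_div_of_nonneg_right h1 hp2.le
        _ = (∫ z, |X z| ^ (2 * p) ∂μ) / 2 / ((2 * p + 1).factorial : ℝ) +
              (∫ z, |X z| ^ (2 * (p + 1)) ∂μ) / 2 / ((2 * p + 1).factorial : ℝ) := add_div _ _ _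
        _ ≤ _ := add_le_add hA hB
    have hexp2 : Summable (fun p : ℕ => (v / 2) ^ p / (p.factorial : ℝ) +
        (v / 2) ^ (p + 1) / (p.factorial : ℝ)) := by
      refine hexp.add ?_
      have : (fun p : ℕ => (v / 2) ^ (p + 1) / (p.factorial : ℝ)) =
          fun p : ℕ => (v / 2) * ((v / 2) ^ p / (p.factorial : ℝ)) := by
        funext p
        rw [pow_succ]
        ring
      rw [this]
      exact hexp.mul_left _
    refine Summable.of_nonneg_of_le (fun p => ?_) hb2 hexp2
    have : 0 ≤ ∫ z, |X z| ^ (2 * p + 1) ∂μ := integral_nonneg (fun z => by positivity)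
    positivity
  exact (HasSum.even_add_odd
    (f := fun n : ℕ => (∫ z, |X z| ^ n ∂μ) / (n.factorial : ℝ)) hse.hasSum hso.hasSum).summable

/-- the characteristic function is the sum of its Taylor series -/
theorem cf_hasSum {Ω : Type*} [MeasurableSpace Ω] (μ : Measure Ω) (X : Ω → ℝ)
    (hX : ∀ p : ℕ, Integrable (fun z => X z ^ p) μ) (v : ℝ)
    (hb : ∀ p : ℕ, (∫ z, X z ^ (2 * p) ∂μ) * (2 ^ p * (p.factorial : ℝ)) ≤
      ((2 * p).factorial : ℝ) * v ^ p) :
    HasSum (fun n : ℕ => (Complex.I ^ n / (n.factorial : ℂ)) * ((∫ z, X z ^ n ∂μ : ℝ) : ℂ))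
      (∫ z, Complex.exp (Complex.I * (X z : ℂ)) ∂μ) := by
  have hs := summable_abs μ X hX v hb
  have hint : ∀ n : ℕ, Integrable (fun z => (Complex.I * (X z : ℂ)) ^ n / (n.factorial : ℂ)) μ := by
    intro n
    have h1 : Integrable (fun z => ((X z ^ n : ℝ) : ℂ)) μ := (hX n).ofReal
    have h2 := h1.const_mul (Complex.I ^ n / (n.factorial : ℂ))
    refine h2.congr (Eventually.of_forall (fun z => ?_))
    simp only [mul_pow, Complex.ofReal_pow]
    ring
  have hnorm : ∀ n : ℕ, ∫ z, ‖(Complex.I * (X z : ℂ)) ^ n / (n.factorial : ℂ)‖ ∂μ =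
      (∫ z, |X z| ^ n ∂μ) / (n.factorial : ℝ) := by
    intro n
    rw [← integral_div]
    refine integral_congr_ae (Eventually.of_forall (fun z => ?_))
    simp [norm_pow]
  have h3 := hasSum_integral_of_summable_integral_norm hint (by simpa only [hnorm] using hs)
  have h4 : ∀ z, ∑' n : ℕ, (Complex.I * (X z : ℂ)) ^ n / (n.factorial : ℂ) =
      Complex.exp (Complex.I * (X z : ℂ)) := by
    intro z
    rw [Complex.exp_eq_exp_ℂ, NormedSpace.exp_eq_tsum_div]
  have h5 : ∀ n : ℕ, ∫ z, (Complex.I * (X z : ℂ)) ^ n / (n.factorial : ℂ) ∂μ =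
      (Complex.I ^ n / (n.factorial : ℂ)) * ((∫ z, X z ^ n ∂μ : ℝ) : ℂ) := by
    intro n
    rw [← integral_complex_ofReal, ← integral_const_mul]
    refine integral_congr_ae (Eventually.of_forall (fun z => ?_))
    simp only [mul_pow, Complex.ofReal_pow]
    ring
  simp only [h4, h5] at h3
  exact h3

/-- (DCM) -/
theorem pf_DCM (hECF : T_ECF) : T_DCM := by
  intro d μ hμ hM hv μ' hμ' hM' hmom
  refine hECF d μ' μ hμ' hμ (fun f => ?_)
  obtain ⟨v, -, hb⟩ := hv f
  have key : ∀ (ρ : Measure (SD d)), IsProbabilityMeasure ρ → IsMAO ρ →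
      ∀ p : ℕ, Integrable (fun T : SD d => (T f) ^ p) ρ := by
    intro ρ hρ hMρ p
    rcases Nat.eq_zero_or_pos p with rfl | hp
    · simp
    · have h1 := hMρ f (p : ℝ≥0∞) (ENNReal.natCast_ne_top p)
      have h2 := h1.integrable_norm_pow hp.ne'
      have h3 : AEStronglyMeasurable (fun T : SD d => (T f) ^ p) ρ :=
        (continuous_pow p).comp_aestronglyMeasurable h1.aestronglyMeasurable
      refine (integrable_norm_iff h3).1 ?_
      simpa only [norm_pow] using h2
  have hmm : ∀ n : ℕ, ∫ T : SD d, (T f) ^ n ∂μ' = ∫ T : SD d, (T f) ^ n ∂μ := by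
    intro n
    have := hmom n (fun _ => f)
    simpa [moment] using this
  have e1 := cf_hasSum μ (fun T : SD d => T f) (key μ hμ hM) v hb
  have e2 := cf_hasSum μ' (fun T : SD d => T f) (key μ' hμ' hM') v
    (fun p => by rw [hmm]; exact hb p)
  simp only [hmm] at e2
  exact e2.unique e1

end Pool.Agent.H85.LD
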